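import Pool.Agent.TH960.PE.Alg

set_option autoImplicit false
set_option synthInstance.maxSize 2000

/-!
# Equality of periods is at most as hard as any congruence modulo a proper subfield

Q1 asks whether equality of two periods, presented by explicit integrals, is decidable.  For a set
`S` of complex numbers consider the problem to decide whether the difference of two periods lies in
`S`.  If `S` is a subfield of `ℂ` which does not contain all periods (for example `ℚ`, the algebraic
numbers, or any field without `π`), or a finite-dimensional vector space over the algebraic numbers,
or, more generally, a set in which `0` is detected by finitely many multiplications with periods,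
then this problem is at least as hard as Q1: an algorithm for it gives an algorithm for equality.
So a negative answer to Q1 would imply that rationality, algebraicity, linear dependence on given
numbers, ... of differences of periods are all undecidable.

The presentations, the admissibility condition and the values are those of the problem; the proof
multiplies integrals (of any dimension, Fubini) by a fixed integral, computably.
-/

namespace Pool.Agent.Results.MP_bbe012_lc.CongruenceModSubfields

open Pool.Agent.TH960.PE

theorem result :
    (∀ (S : Set ℂ) (L : List ℂ), (∀ τ ∈ L, τ ∈ Submonoid.closure gens) → (0 : ℂ) ∈ S →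
      (∀ z ∈ S, (∀ τ ∈ L, τ * z ∈ S) → z = 0) →
      AlgDecidable (fun a b => a - b ∈ S) → AlgDecidable (fun a b => a = b)) ∧
    (∀ K : Subfield ℂ, ((∃ p : Pres, PAdm p ∧ pval p ∉ K) ∨ (Real.pi : ℂ) ∉ K) →
      AlgDecidable (fun a b => a - b ∈ K) → AlgDecidable (fun a b => a = b)) ∧
    (∀ (k : Subfield ℂ) (V : Submodule k ℂ), FiniteDimensional k V →
      (∃ t : Code, Adm t ∧ Transcendental k (val t : ℂ)) →
      AlgDecidable (fun a b => a - b ∈ V) → AlgDecidable (fun a b => a = b)) ∧
    (∀ V : Submodule (algebraicClosure ℚ ℂ) ℂ, FiniteDimensional (algebraicClosure ℚ ℂ) V →
      AlgDecidable (fun a b => a - b ∈ V) → AlgDecidable (fun a b => a = b)) ∧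
    (AlgDecidable (fun a b => ∃ q : ℚ, a - b = q) → AlgDecidable (fun a b => a = b)) := by
  refine ⟨fun S L hL h0 hS h => criterion S L hL h0 hS h, fun K hK h => ?_,
    fun k V hV ht h => ?_, fun V hV h => ?_, rational⟩
  · rcases hK with hK | hK
    · exact subfield K hK h
    · exact subfield_pi K hK h
  · obtain ⟨t, ht, htr⟩ := ht
    exact space k V t ht htr h
  · exact algebraic_space V h

end Pool.Agent.Results.MP_bbe012_lc.CongruenceModSubfields
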