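import Pool.Agent.TH659.AQ.Equal

/-!
# Equality of periods in families: an errorless test which answers for almost all parameters
-/

set_option autoImplicit false

namespace Pool.Agent.Results.MP_bbe012_lc.ErrorlessOnAlmostAll

/-- The complete elliptic integral of the first kind, `K(s) = ∫_0^{π/2} (1 - s sin²θ)^(-1/2) dθ`. -/
noncomputable def K (s : ℝ) : ℝ := ∫ θ in (0 : ℝ)..(Real.pi / 2), 1 / √(1 - s * Real.sin θ ^ 2)

/-- The complete elliptic integral of the second kind, `E(s) = ∫_0^{π/2} (1 - s sin²θ)^(1/2) dθ`. -/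
noncomputable def E (s : ℝ) : ℝ := ∫ θ in (0 : ℝ)..(Real.pi / 2), √(1 - s * Real.sin θ ^ 2)

/-- `f_0(t) = log t`, and for `k ≥ 1` the polylogarithm `f_k(t) = Li_k(t) = ∑_{m ≥ 1} t^m / m^k`. -/
noncomputable def f (k : ℕ) (t : ℝ) : ℝ := if k = 0 then Real.log t else ∑' m : ℕ, t ^ (m + 1) / ((m : ℝ) + 1) ^ k

/-- The names of the `1 + n (4 N + w + 1)` numbers. -/
abbrev Name (N n w : ℕ) : Type := Option (Fin n × ((Fin N × Fin 4) ⊕ Fin (w + 1)))

/-- The numbers at the parameter `q`: `π`; `K(s)`, `E(s)`, `K(1 - s)`, `E(1 - s)` for `s = (q_l - α_j) / (γ_j - α_j)`;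
`log q_l`, `Li_1(q_l)`, …, `Li_w(q_l)`. -/
noncomputable def periods {N n w : ℕ} (α γ : Fin N → ℝ) (q : Fin n → ℚ) (z : Name N n w) : ℝ :=
  match z with
  | none => Real.pi
  | some (l, Sum.inl (j, i)) => ![K ((q l - α j) / (γ j - α j)), E ((q l - α j) / (γ j - α j)),
      K (1 - (q l - α j) / (γ j - α j)), E (1 - (q l - α j) / (γ j - α j))] i
  | some (l, Sum.inr k) => f (k : ℕ) (q l)

/-- An expression is a polynomial in the names with integer coefficients; its value at the parameter `q`. -/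
noncomputable def value {N n w : ℕ} (α γ : Fin N → ℝ) (q : Fin n → ℚ) (P : MvPolynomial (Name N n w) ℤ) : ℝ :=
  MvPolynomial.aeval (periods α γ q) P

open MvPolynomial in
/-- The ideal generated by the Legendre relations `2 K(s) E(1-s) + 2 E(s) K(1-s) - 2 K(s) K(1-s) = π`. -/
noncomputable def legendre (N n w : ℕ) : Ideal (MvPolynomial (Name N n w) ℤ) :=
  Ideal.span (Set.range fun x : Fin n × Fin N =>
    2 * X (some (x.1, Sum.inl (x.2, 0))) * X (some (x.1, Sum.inl (x.2, 3))) +
    2 * X (some (x.1, Sum.inl (x.2, 1))) * X (some (x.1, Sum.inl (x.2, 2))) -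
    2 * X (some (x.1, Sum.inl (x.2, 0))) * X (some (x.1, Sum.inl (x.2, 2))) - X none)

open MvPolynomial in
/-- Formal equality of two expressions of degree at most `d` in each variable: their difference, multiplied by the `d`-th
power of the product of all `2 K(s)`, is in the ideal of the Legendre relations. -/
def FormallyEqual {N n w : ℕ} (d : ℕ) (P₁ P₂ : MvPolynomial (Name N n w) ℤ) : Prop :=
  (∏ x : Fin n × Fin N, 2 * X (some (x.1, Sum.inl (x.2, 0)))) ^ d * (P₁ - P₂) ∈ legendre N n w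

open Classical in
/-- The test. Input: two expressions and approximations `v₁`, `v₂` of their values with error at most `δ`. It answers
`true` (equal) if the expressions are formally equal, `false` (not equal) if they are not and `|v₁ - v₂| > 2 δ`, and
`none` (no answer) otherwise. -/
noncomputable def test {N n w : ℕ} (d : ℕ) (P₁ P₂ : MvPolynomial (Name N n w) ℤ) (v₁ v₂ δ : ℝ) : Option Bool :=
  if FormallyEqual d P₁ P₂ then some true else if 2 * δ < |v₁ - v₂| then some false else none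

/-- The parameters `q` with all `q_l` in `[a, b]` and of denominator at most `T` at which the test with precision
`δ = T ^ (-B)` gives no answer for some pair of expressions of degree at most `d` in each variable, with coefficients
at most `T ^ A` in absolute value, and some admissible approximations. -/
def NoAnswer (N n w d : ℕ) (α γ : Fin N → ℝ) (a b A B T : ℝ) : Set (Fin n → ℚ) :=
  {q | (∀ l, a ≤ q l ∧ q l ≤ b ∧ ((q l).den : ℝ) ≤ T) ∧ ∃ P₁ P₂ : MvPolynomial (Name N n w) ℤ,
    (∀ z, P₁.degreeOf z ≤ d ∧ P₂.degreeOf z ≤ d) ∧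
    (∀ s, |((P₁.coeff s : ℤ) : ℝ)| ≤ T ^ A ∧ |((P₂.coeff s : ℤ) : ℝ)| ≤ T ^ A) ∧
    ∃ v₁ v₂ : ℝ, |v₁ - value α γ q P₁| ≤ T ^ (-B) ∧ |v₂ - value α γ q P₂| ≤ T ^ (-B) ∧
      test d P₁ P₂ v₁ v₂ (T ^ (-B)) = none}

open MvPolynomial in
/-- numerators (used in the proof only) -/
noncomputable def num {N n w : ℕ} (z : Name N n w) :
    MvPolynomial (Option (Fin n × ((Fin N × Fin 3) ⊕ Fin (w + 1)))) ℤ :=
  match z with
  | none => X none
  | some (l, Sum.inl (j, i)) => ![X (some (l, Sum.inl (j, 0))), X (some (l, Sum.inl (j, 1))),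
      X (some (l, Sum.inl (j, 2))), X none + 2 * (X (some (l, Sum.inl (j, 0))) - X (some (l, Sum.inl (j, 1)))) *
        X (some (l, Sum.inl (j, 2)))] i
  | some (l, Sum.inr k) => X (some (l, Sum.inr k))

open MvPolynomial in
/-- denominators (used in the proof only) -/
noncomputable def den {N n w : ℕ} (z : Name N n w) :
    MvPolynomial (Option (Fin n × ((Fin N × Fin 3) ⊕ Fin (w + 1)))) ℤ :=
  match z with
  | none => 1
  | some (l, Sum.inl (j, i)) => ![1, 1, 1, 2 * X (some (l, Sum.inl (j, 0)))] i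
  | some (_, Sum.inr _) => 1

theorem cond {N n w : ℕ} {R : Type} [CommRing R] (x : Name N n w → R)
    (y : Option (Fin n × ((Fin N × Fin 3) ⊕ Fin (w + 1))) → R) (h0 : y none = x none)
    (hK : ∀ l j, y (some (l, Sum.inl (j, 0))) = x (some (l, Sum.inl (j, 0))))
    (hE : ∀ l j, y (some (l, Sum.inl (j, 1))) = x (some (l, Sum.inl (j, 1))))
    (hK' : ∀ l j, y (some (l, Sum.inl (j, 2))) = x (some (l, Sum.inl (j, 2))))
    (hf : ∀ l k, y (some (l, Sum.inr k)) = x (some (l, Sum.inr k)))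
    (hL : ∀ l j, 2 * x (some (l, Sum.inl (j, 0))) * x (some (l, Sum.inl (j, 3))) +
      2 * x (some (l, Sum.inl (j, 1))) * x (some (l, Sum.inl (j, 2))) -
      2 * x (some (l, Sum.inl (j, 0))) * x (some (l, Sum.inl (j, 2))) = x none) :
    (∀ i, MvPolynomial.aeval y (num i) = MvPolynomial.aeval y (den i) * x i) ∧
      ∏ i, MvPolynomial.aeval y (den i) = ∏ z : Fin n × Fin N, 2 * x (some (z.1, Sum.inl (z.2, 0))) := by
  refine ⟨?_, ?_⟩
  · rintro (_ | ⟨l, ⟨j, i⟩ | k⟩)
    · simp [num, den, h0]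
    · fin_cases i
      · simp [num, den, hK]
      · simp [num, den, hE]
      · simp [num, den, hK']
      · have := hL l j
        simp [num, den, h0, hK, hE, hK']
        linear_combination (-1 : R) * this
    · simp [num, den, hf]
  · rw [Fintype.prod_option, Fintype.prod_prod_type, Fintype.prod_prod_type]
    simp [Fintype.prod_sum_type, Fintype.prod_prod_type, Fin.prod_univ_four, den, hK]

open MvPolynomial in
theorem formal {N n w : ℕ} (d : ℕ) {R : Type} [CommRing R] (φ : MvPolynomial (Name N n w) ℤ →+* R)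
    (hφ : ∀ x : Fin n × Fin N, φ (2 * X (some (x.1, Sum.inl (x.2, 0))) * X (some (x.1, Sum.inl (x.2, 3))) +
      2 * X (some (x.1, Sum.inl (x.2, 1))) * X (some (x.1, Sum.inl (x.2, 2))) -
      2 * X (some (x.1, Sum.inl (x.2, 0))) * X (some (x.1, Sum.inl (x.2, 2))) - X none) = 0)
    (P : MvPolynomial (Name N n w) ℤ) (hd : ∀ i, P.degreeOf i ≤ d) (h0 : TH659.AQ.elimp d num den P = 0) :
    φ ((∏ x : Fin n × Fin N, 2 * X (some (x.1, Sum.inl (x.2, 0)))) ^ d * P) = 0 := by
  let x : Name N n w → R := fun i => φ (X i)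
  let y : Option (Fin n × ((Fin N × Fin 3) ⊕ Fin (w + 1))) → R := fun z =>
    match z with
    | none => x none
    | some (l, Sum.inl (j, i)) => x (some (l, Sum.inl (j, Fin.castSucc i)))
    | some (l, Sum.inr k) => x (some (l, Sum.inr k))
  have hx : MvPolynomial.aeval x = φ.toIntAlgHom := (MvPolynomial.aeval_unique φ.toIntAlgHom).symm
  obtain ⟨h1, h2⟩ := cond x y rfl (fun _ _ => rfl) (fun _ _ => rfl) (fun _ _ => rfl) (fun _ _ => rfl) (by
    intro l j
    rw [← sub_eq_zero]
    have := hφ (l, j)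
    simpa [map_sub, map_add, map_mul, map_ofNat] using this)
  have h3 := TH659.AQ.aeval_elimp num den x y h1 P hd
  rw [h0, map_zero, h2, hx] at h3
  rw [map_mul, map_pow, map_prod]
  simp only [map_mul, map_ofNat]
  exact h3.symm

/-- Let `n ≥ 1`, `α_1 > ⋯ > α_N > 0`, `γ_1 < ⋯ < γ_N < 1` and `0 < a < b < 1` with `α_1 < a`, `b < γ_1`. The test is never
wrong, and for `d`, `w`, `A ≥ 0` there are `β < 2`, `B` and `C` such that for all `T ≥ 1` there are at most
`C T ^ (2 (n - 1) + β)` parameters at which it gives no answer for some pair of expressions. -/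
theorem result {N : ℕ} (n w d : ℕ) (hn : 1 ≤ n) (α γ : Fin N → ℝ) (hα : StrictAnti α) (hγ : StrictMono γ)
    (hα0 : ∀ j, 0 < α j) (hγ1 : ∀ j, γ j < 1) (a b : ℝ) (ha : 0 < a) (hab : a < b) (hb : b < 1)
    (h : ∀ j, α j < a ∧ b < γ j) (A : ℝ) (hA : 0 ≤ A) :
    (∀ q : Fin n → ℚ, (∀ l, a ≤ q l ∧ q l ≤ b) → ∀ P₁ P₂ : MvPolynomial (Name N n w) ℤ, ∀ v₁ v₂ δ : ℝ,
      |v₁ - value α γ q P₁| ≤ δ → |v₂ - value α γ q P₂| ≤ δ →
      (test d P₁ P₂ v₁ v₂ δ = some true → value α γ q P₁ = value α γ q P₂) ∧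
      (test d P₁ P₂ v₁ v₂ δ = some false → value α γ q P₁ ≠ value α γ q P₂)) ∧
    ∃ β B C : ℝ, β < 2 ∧ ∀ T : ℝ, 1 ≤ T → (NoAnswer N n w d α γ a b A B T).Finite ∧
      ((NoAnswer N n w d α γ a b A B T).ncard : ℝ) ≤ C * T ^ (2 * ((n : ℝ) - 1) + β) := by
  have hs : ∀ q : Fin n → ℚ, (∀ l, a ≤ q l ∧ q l ≤ b) → ∀ l j, 0 < ((q l : ℝ) - α j) / (γ j - α j) ∧
      ((q l : ℝ) - α j) / (γ j - α j) < 1 := by
    intro q hq l j
    have h1 := (h j).1
    have h2 := (h j).2
    have h3 := hq l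
    have h4 : 0 < γ j - α j := by linarith
    exact ⟨div_pos (by linarith) h4, by rw [div_lt_one h4]; linarith⟩
  -- the Legendre relations
  have hleg : ∀ q : Fin n → ℚ, (∀ l, a ≤ q l ∧ q l ≤ b) → ∀ l j,
      2 * periods (w := w) α γ q (some (l, Sum.inl (j, 0))) * periods (w := w) α γ q (some (l, Sum.inl (j, 3))) +
      2 * periods (w := w) α γ q (some (l, Sum.inl (j, 1))) * periods (w := w) α γ q (some (l, Sum.inl (j, 2))) -
      2 * periods (w := w) α γ q (some (l, Sum.inl (j, 0))) * periods (w := w) α γ q (some (l, Sum.inl (j, 2))) =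
      periods (w := w) α γ q none := by
    intro q hq l j
    obtain ⟨h1, h2⟩ := hs q hq l j
    have h3 := TH659.AQ.legHalf _ h1 h2
    have h4 : 2 * (TH818.AR.KK (((q l : ℝ) - α j) / (γ j - α j)) *
        TH818.AR.EE (1 - ((q l : ℝ) - α j) / (γ j - α j)) + TH818.AR.EE (((q l : ℝ) - α j) / (γ j - α j)) *
        TH818.AR.KK (1 - ((q l : ℝ) - α j) / (γ j - α j)) - TH818.AR.KK (((q l : ℝ) - α j) / (γ j - α j)) *
        TH818.AR.KK (1 - ((q l : ℝ) - α j) / (γ j - α j))) = Real.pi := by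
      rw [h3]; ring
    have h5 : periods (w := w) α γ q none = Real.pi := rfl
    rw [h5, ← h4]
    show 2 * TH818.AR.KK (((q l : ℝ) - α j) / (γ j - α j)) * TH818.AR.EE (1 - ((q l : ℝ) - α j) / (γ j - α j)) +
      2 * TH818.AR.EE (((q l : ℝ) - α j) / (γ j - α j)) * TH818.AR.KK (1 - ((q l : ℝ) - α j) / (γ j - α j)) -
      2 * TH818.AR.KK (((q l : ℝ) - α j) / (γ j - α j)) * TH818.AR.KK (1 - ((q l : ℝ) - α j) / (γ j - α j)) = _
    ring
  have hKpos : ∀ q : Fin n → ℚ, (∀ l, a ≤ q l ∧ q l ≤ b) → ∀ l j,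
      0 < periods (w := w) α γ q (some (l, Sum.inl (j, 0))) := fun q hq l j =>
    TH818.AR.pos.1 _ (hs q hq l j).2
  refine ⟨?_, ?_⟩
  · -- soundness
    intro q hq P₁ P₂ v₁ v₂ δ hv₁ hv₂
    refine ⟨?_, ?_⟩
    · intro ht
      have hfe : FormallyEqual d P₁ P₂ := by
        by_contra hne
        unfold test at ht
        rw [if_neg hne] at ht
        (split_ifs at ht; simp_all)
      have hker : legendre N n w ≤ RingHom.ker (MvPolynomial.aeval (periods α γ q) :
          MvPolynomial (Name N n w) ℤ →ₐ[ℤ] ℝ) := by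
        unfold legendre
        rw [Ideal.span_le]
        rintro _ ⟨⟨l, j⟩, rfl⟩
        rw [SetLike.mem_coe, RingHom.mem_ker]
        simp only [map_sub, map_add, map_mul, MvPolynomial.aeval_X, map_ofNat]
        rw [hleg q hq l j, sub_self]
      have h1 := hker hfe
      rw [RingHom.mem_ker, map_mul, map_pow, map_prod, map_sub] at h1
      have h2 : (∏ x : Fin n × Fin N, MvPolynomial.aeval (periods α γ q) (2 * MvPolynomial.X (some (x.1, Sum.inl (x.2, 0))) :
          MvPolynomial (Name N n w) ℤ)) ^ d ≠ 0 := by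
        refine pow_ne_zero _ (Finset.prod_ne_zero_iff.2 fun x _ => ?_)
        simp only [map_mul, MvPolynomial.aeval_X, map_ofNat]
        have := hKpos q hq x.1 x.2
        positivity
      rcases mul_eq_zero.1 h1 with h3 | h3
      · exact absurd h3 h2
      · exact sub_eq_zero.1 h3
    · intro ht heq
      have hlt : 2 * δ < |v₁ - v₂| := by
        by_contra hne
        unfold test at ht
        rw [if_neg hne] at ht
        (split_ifs at ht; simp_all)
      have h1 : |v₁ - v₂| ≤ |v₁ - value α γ q P₁| + |v₂ - value α γ q P₂| := by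
        rw [heq]
        have : v₁ - v₂ = (v₁ - value α γ q P₂) - (v₂ - value α γ q P₂) := by ring
        rw [this]
        exact abs_sub _ _
      linarith
  · -- the values
    have hy0 : ∀ q : Fin n → ℚ, TH659.AQ.vR (TH659.AQ.u2 (w := w) α γ) q none = periods (w := w) α γ q none := fun _ => rfl
    have hyK : ∀ (q : Fin n → ℚ) l j, TH659.AQ.vR (TH659.AQ.u2 (w := w) α γ) q (some (l, Sum.inl (j, 0))) =
        periods (w := w) α γ q (some (l, Sum.inl (j, 0))) := fun _ _ _ => rfl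
    have hyE : ∀ (q : Fin n → ℚ) l j, TH659.AQ.vR (TH659.AQ.u2 (w := w) α γ) q (some (l, Sum.inl (j, 1))) =
        periods (w := w) α γ q (some (l, Sum.inl (j, 1))) := fun _ _ _ => rfl
    have hyK' : ∀ (q : Fin n → ℚ) l j, TH659.AQ.vR (TH659.AQ.u2 (w := w) α γ) q (some (l, Sum.inl (j, 2))) =
        periods (w := w) α γ q (some (l, Sum.inl (j, 2))) := by
      intro q l j
      have hne : γ j - α j ≠ 0 := by linarith [(h j).1, (h j).2]
      have h1 : 1 - ((q l : ℝ) - α j) / (γ j - α j) = (γ j - q l) / (γ j - α j) := by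
        field_simp
        ring
      show TH818.AR.KK ((γ j - q l) / (γ j - α j)) = TH818.AR.KK (1 - ((q l : ℝ) - α j) / (γ j - α j))
      rw [h1]
    have hyf : ∀ (q : Fin n → ℚ) l k, TH659.AQ.vR (TH659.AQ.u2 (w := w) α γ) q (some (l, Sum.inr k)) =
        periods (w := w) α γ q (some (l, Sum.inr k)) := fun _ _ _ => rfl
    -- bound for the product
    have han : ∀ p, AnalyticOnNhd ℝ (TH659.AQ.u2 (w := w) α γ p) (Set.Icc a b) := fun p t ht =>
      TH659.AQ.u2_an α γ t (fun j => ⟨(h j).1.trans_le ht.1, lt_of_le_of_lt ht.2 (h j).2⟩) (ha.trans_le ht.1)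
        (lt_of_le_of_lt ht.2 hb) p
    have hbd : ∃ M : ℝ, 0 ≤ M ∧ ∀ j : Fin N, ∀ t ∈ Set.Icc a b, |TH659.AQ.u2 (w := w) α γ (Sum.inl (j, 0)) t| ≤ M := by
      have h1 : ∀ j : Fin N, ∃ M : ℝ, ∀ t ∈ Set.Icc a b, |TH659.AQ.u2 (w := w) α γ (Sum.inl (j, 0)) t| ≤ M := fun j => by
        obtain ⟨M, hM⟩ := isCompact_Icc.exists_bound_of_continuousOn (han (Sum.inl (j, 0))).continuousOn
        exact ⟨M, hM⟩
      choose M hM using h1
      refine ⟨∑ j, |M j|, Finset.sum_nonneg fun _ _ => abs_nonneg _, fun j t ht => ?_⟩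
      exact ((hM j t ht).trans (le_abs_self _)).trans
        (Finset.single_le_sum (f := fun j => |M j|) (fun _ _ => abs_nonneg _) (Finset.mem_univ j))
    obtain ⟨M, hM0, hM⟩ := hbd
    obtain ⟨β, B, C, hβ, hgap⟩ := TH659.AQ.gap n d hn (TH659.AQ.u2 (w := w) α γ) a b hab han
      (fun D => TH659.AQ.u2_ind D α γ hα hγ (fun j => (h j).1.trans (hab.trans (h j).2)) hα0 hγ1 a b ha hab hb
        (fun j => ⟨(h j).1.le, (h j).2.le⟩))
      (num (N := N) (n := n) (w := w)) den (fun q => periods α γ q) ((∏ _x : Fin n × Fin N, (2 * M)) ^ d)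
      (by
        intro q hq
        obtain ⟨h1, h2⟩ := cond (periods α γ q) (TH659.AQ.vR (TH659.AQ.u2 (w := w) α γ) q) (hy0 q) (hyK q) (hyE q)
          (hyK' q) (hyf q) (hleg q hq)
        refine ⟨h1, ?_⟩
        rw [h2, abs_pow, Finset.abs_prod]
        refine pow_le_pow_left₀ (Finset.prod_nonneg fun _ _ => abs_nonneg _) (Finset.prod_le_prod (fun _ _ => abs_nonneg _) fun x _ => ?_) d
        rw [← hyK, abs_mul, abs_two]
        have := hM x.2 (q x.1) (hq x.1)
        exact mul_le_mul_of_nonneg_left this (by norm_num)) A hA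
    refine ⟨β, B, C, hβ, fun T hT => ?_⟩
    obtain ⟨S, hS, hSc, hSg⟩ := hgap T hT
    have hsub : NoAnswer N n w d α γ a b A B T ⊆ S := by
      rintro q ⟨hq, P₁, P₂, hPd, hPc, v₁, v₂, hv₁, hv₂, hnone⟩
      by_contra hqS
      have hne : ¬ FormallyEqual d P₁ P₂ ∧ |v₁ - v₂| ≤ 2 * T ^ (-B) := by
        unfold test at hnone
        split_ifs at hnone with h1 h2
        exact ⟨h1, not_lt.1 h2⟩
      apply hne.1
      have hd : ∀ i, (P₁ - P₂).degreeOf i ≤ d := fun i =>
        (MvPolynomial.degreeOf_sub_le i P₁ P₂).trans (max_le (hPd i).1 (hPd i).2)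
      have h0 := hSg q hq hqS (P₁ - P₂) hd (by
        intro s
        rw [MvPolynomial.coeff_sub]
        push_cast
        refine (abs_sub _ _).trans ?_
        linarith [(hPc s).1, (hPc s).2]) (by
        rw [map_sub]
        have e1 : value α γ q P₁ = MvPolynomial.aeval (periods α γ q) P₁ := rfl
        have e2 : value α γ q P₂ = MvPolynomial.aeval (periods α γ q) P₂ := rfl
        rw [← e1, ← e2]
        have e3 : value α γ q P₁ - value α γ q P₂ = -(v₁ - value α γ q P₁) + (v₂ - value α γ q P₂) + (v₁ - v₂) := by ring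
        rw [e3]
        refine (abs_add_three _ _ _).trans ?_
        rw [abs_neg]
        linarith [hne.2])
      have h4 := formal d (Ideal.Quotient.mk (legendre N n w)) (fun x =>
        Ideal.Quotient.eq_zero_iff_mem.2 (Ideal.subset_span ⟨x, rfl⟩)) (P₁ - P₂) hd h0
      exact Ideal.Quotient.eq_zero_iff_mem.1 h4
    refine ⟨hS.subset hsub, le_trans ?_ hSc⟩
    exact_mod_cast Set.ncard_le_ncard hsub hS

end Pool.Agent.Results.MP_bbe012_lc.ErrorlessOnAlmostAll
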